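import Pool.Agent.W774.TL.Stm

set_option autoImplicit false

/-!
TL-J1: the motion before the crossing.
-/

namespace Pool.Agent.W705.TL.J1

open Set Filter Topology Pool.Agent.W774.TL

theorem boot (g : ℝ → ℝ) (l r c : ℝ) (hc : ContinuousOn g (Icc l r))
    (h : ∀ τ ∈ Icc l r, (∀ σ ∈ Ico l τ, g σ < c) → g τ < c) :
    ∀ τ ∈ Icc l r, g τ < c := by
  by_contra hcon
  push Not at hcon
  obtain ⟨τ₁, hτ₁, h1⟩ := hcon
  have hcl : IsClosed (Icc l r ∩ g ⁻¹' Ici c) := hc.preimage_isClosed_of_isClosed isClosed_Icc isClosed_Ici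
  have hcomp : IsCompact (Icc l r ∩ g ⁻¹' Ici c) :=
    isCompact_Icc.of_isClosed_subset hcl inter_subset_left
  obtain ⟨τ₂, h2, h3⟩ := hcomp.exists_isLeast ⟨τ₁, hτ₁, h1⟩
  have h4 : g τ₂ < c := by
    apply h τ₂ h2.1
    intro σ hσ
    by_contra h5
    push Not at h5
    have h6 : σ ∈ Icc l r ∩ g ⁻¹' Ici c := ⟨⟨hσ.1, hσ.2.le.trans h2.1.2⟩, h5⟩
    have h7 := h3 h6
    exact absurd hσ.2 (not_lt.2 h7)
  exact absurd h4 (not_lt.2 h2.2)

theorem S_le (u : ℝ) : S u ≤ |u| := by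
  unfold S
  have hp : 0 < 2 * Real.pi := by positivity
  rw [div_le_iff₀ hp]
  have h1 : Real.sin (2 * Real.pi * u) ≤ |2 * Real.pi * u| :=
    (le_abs_self _).trans Real.abs_sin_le_abs
  rw [abs_mul, abs_of_pos hp] at h1
  linarith

theorem S_small (u : ℝ) (h0 : 0 < u) (h1 : u ≤ 3 / 100) : 99 / 100 * u ≤ S u := by
  unfold S
  have hp : 0 < 2 * Real.pi := by positivity
  have hpi := Real.pi_lt_d2
  have hpi0 := Real.pi_pos
  rw [le_div_iff₀ hp]
  have h3 := Real.sin_gt_sub_cube (mul_pos hp h0)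
  have h4 : (2 * Real.pi * u) ^ 3 / 6 ≤ 1 / 100 * (2 * Real.pi * u) := by
    have h5 : (2 * Real.pi * u) ^ 2 ≤ 1 / 25 := by
      have h6 : 2 * Real.pi * u ≤ 19 / 100 := by nlinarith
      have h7 : 0 ≤ 2 * Real.pi * u := by positivity
      nlinarith
    have h8 : 0 ≤ 2 * Real.pi * u := by positivity
    nlinarith
  nlinarith

theorem S_big (u : ℝ) (h0 : 0 ≤ u) (h1 : u ≤ 1 / 2 + 51 / 50000) : -(51 / 50000) ≤ S u := by
  unfold S
  have hp : 0 < 2 * Real.pi := by positivity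
  have hpi0 := Real.pi_pos
  rw [le_div_iff₀ hp]
  rcases le_total u (1 / 2) with h2 | h2
  · have h3 : 0 ≤ Real.sin (2 * Real.pi * u) := by
      apply Real.sin_nonneg_of_nonneg_of_le_pi
      · positivity
      · nlinarith
    nlinarith
  · have h3 : Real.sin (2 * Real.pi * u) = - Real.sin (2 * Real.pi * u - Real.pi) := by
      rw [Real.sin_sub_pi, neg_neg]
    have h4 : Real.sin (2 * Real.pi * u - Real.pi) ≤ 2 * Real.pi * u - Real.pi := by
      apply Real.sin_le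
      nlinarith
    rw [h3]
    nlinarith

theorem Co_near (a : ℝ) (h : |a| ≤ 51 / 50000) : |Co a - 1| ≤ 21 / 1000000 := by
  unfold Co
  have hpi := Real.pi_lt_d2
  have hpi0 := Real.pi_pos
  have h1 := Real.one_sub_sq_div_two_le_cos (x := 2 * Real.pi * a)
  have h2 := Real.cos_le_one (2 * Real.pi * a)
  have h3 : (2 * Real.pi * a) ^ 2 / 2 ≤ 21 / 1000000 := by
    have h4 : a ^ 2 ≤ (51 / 50000) ^ 2 := by
      rw [← sq_abs]
      exact pow_le_pow_left₀ (abs_nonneg _) h 2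
    have h5 : Real.pi ^ 2 ≤ 315 / 100 * (315 / 100) := by nlinarith
    have h6 : (2 * Real.pi * a) ^ 2 / 2 = 2 * (Real.pi ^ 2 * a ^ 2) := by ring
    have h7 : Real.pi ^ 2 * a ^ 2 ≤ 315 / 100 * (315 / 100) * (51 / 50000) ^ 2 :=
      mul_le_mul h5 h4 (sq_nonneg _) (by norm_num)
    rw [h6]
    norm_num at h7 ⊢
    linarith
  rw [abs_le]
  constructor <;> linarith

theorem sg_nonneg (y : ℝ) : 0 ≤ sg y := by
  unfold sg
  positivity

theorem sg_le (y : ℝ) : sg y ≤ Real.exp y := by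
  unfold sg
  apply div_le_self (Real.exp_pos y).le
  linarith [Real.exp_pos y]

theorem exp_small (A : ℝ) (hA : 1000000000 ≤ A) (y : ℝ) (hy : y ≤ -(A / 1000)) :
    Real.exp y ≤ 1 / 1000000 := by
  have h1 : Real.exp y * Real.exp (-y) = 1 := by
    rw [← Real.exp_add]
    simp
  have h2 := Real.add_one_le_exp (-y)
  have h3 : (1000000 : ℝ) ≤ Real.exp (-y) := by linarith
  have h4 := Real.exp_pos y
  have h5 : Real.exp y * 1000000 ≤ 1 := by
    rw [← h1]
    exact mul_le_mul_of_nonneg_left h3 h4.le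
  linarith

/-- the bootstrap bounds give the region and the bound of `y`. -/
theorem point (A τ a p a0 p0 : ℝ) (hA : 0 < A) (h1 : -1 / 2 ≤ τ) (h2 : τ ≤ -1 / 500)
    (ha0 : |a0| ≤ 1 / 1000) (hp0 : |p0 - A| ≤ A / 1000) (ha : |a - a0| ≤ 1 / 50000)
    (hp : |p - p0 - A * (τ + 1 / 2)| ≤ A / 50000) :
    R1 A τ a p ∧ |a| ≤ 51 / 50000 ∧ yy A τ a p ≤ -(A / 1000) := by
  rw [abs_le] at ha0 hp0 ha hp
  have ha1 : |a| ≤ 51 / 50000 := by
    rw [abs_le]
    constructor <;> linarith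
  have ha2 := abs_le.1 ha1
  refine ⟨⟨h1, by linarith, ha1.trans (by norm_num), ?_⟩, ha1, ?_⟩
  · rw [abs_le]
    constructor <;> linarith
  · unfold yy
    have hS := (S_le a).trans ha1
    have key : τ + 51 / 50000 - 3 * S (a - τ) + S a ≤ -(1 / 1000) := by
      rcases le_total (-1 / 50) τ with h3 | h3
      · have h4 := S_small (a - τ) (by linarith) (by linarith)
        linarith
      · have h4 := S_big (a - τ) (by linarith) (by linarith)
        linarith
    have h5 := mul_le_mul_of_nonneg_left key hA.le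
    linarith

theorem main : P_J1 := by
  intro G hG
  refine ⟨1000000000 * (1 + G), fun A hA a p a' p' hS ha0 hp0 => ?_⟩
  have hA9 : 1000000000 ≤ A := by nlinarith
  have hAG : 1 + G ≤ A / 1000000000 := by linarith
  have hApos : 0 < A := by linarith
  have hder : ∀ τ ∈ Icc (-1 / 2 : ℝ) (-1 / 500), |a τ - a (-1 / 2)| ≤ 1 / 50000 →
      |p τ - p (-1 / 2) - A * (τ + 1 / 2)| ≤ A / 50000 →
      |a' τ| ≤ 1 / 50000 ∧ |p' τ - A| ≤ 3 * A / 100000 := by
    intro τ hτ h1 h2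
    obtain ⟨hR, ha, hy⟩ := point A τ (a τ) (p τ) _ _ hApos hτ.1 hτ.2 ha0 hp0 h1 h2
    obtain ⟨-, -, h3⟩ := hS τ hτ
    obtain ⟨h4, h5⟩ := h3 (Or.inl hR)
    have hs0 := sg_nonneg (yy A τ (a τ) (p τ))
    have hs1 : sg (yy A τ (a τ) (p τ)) ≤ 1 / 1000000 :=
      (sg_le _).trans (exp_small A hA9 _ hy)
    generalize sg (yy A τ (a τ) (p τ)) = s at h4 h5 hs0 hs1
    have hA2 : 1 / A ^ 2 ≤ 1 / 1000000000 := by
      apply one_div_le_one_div_of_le (by norm_num)
      nlinarith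
    have hC1 := Co_near (a τ) ha
    have hC2 : |Co (a τ - τ)| ≤ 1 := Real.abs_cos_le_one _
    have hC3 : |Co (a τ)| ≤ 1 := Real.abs_cos_le_one _
    constructor
    · rw [abs_le] at h4 ⊢
      constructor <;> linarith
    · rw [abs_le] at h5 hC1 hC2 hC3 ⊢
      have h6 : |s * (3 * Co (a τ - τ) - Co (a τ))| ≤ 4 / 1000000 := by
        rw [abs_mul, abs_of_nonneg hs0]
        have h7 : |3 * Co (a τ - τ) - Co (a τ)| ≤ 4 := by
          rw [abs_le]
          constructor <;> linarith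
        calc s * |3 * Co (a τ - τ) - Co (a τ)| ≤ 1 / 1000000 * 4 :=
              mul_le_mul hs1 h7 (abs_nonneg _) (by norm_num)
          _ = 4 / 1000000 := by norm_num
      rw [abs_le] at h6
      have h8 : (1 - s) * Co (a τ) + 3 * s * Co (a τ - τ) =
          1 + (Co (a τ) - 1) + s * (3 * Co (a τ - τ) - Co (a τ)) := by ring
      rw [h8] at h5
      have h9 : A * (s * (3 * Co (a τ - τ) - Co (a τ))) ≤ A * (4 / 1000000) :=
        mul_le_mul_of_nonneg_left h6.2 hApos.le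
      have h10 : A * (-(4 / 1000000)) ≤ A * (s * (3 * Co (a τ - τ) - Co (a τ))) :=
        mul_le_mul_of_nonneg_left h6.1 hApos.le
      have h11 : A * (Co (a τ) - 1) ≤ A * (21 / 1000000) :=
        mul_le_mul_of_nonneg_left hC1.2 hApos.le
      have h12 : A * (-(21 / 1000000)) ≤ A * (Co (a τ) - 1) :=
        mul_le_mul_of_nonneg_left hC1.1 hApos.le
      rw [mul_add, mul_add, mul_one] at h5
      constructor <;> linarith
  -- bootstrap
  have hac : ContinuousOn a (Icc (-1 / 2 : ℝ) (-1 / 500)) := fun τ hτ =>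
    (hS τ hτ).1.continuousAt.continuousWithinAt
  have hpc : ContinuousOn p (Icc (-1 / 2 : ℝ) (-1 / 500)) := fun τ hτ =>
    (hS τ hτ).2.1.continuousAt.continuousWithinAt
  have hgc : ContinuousOn (fun τ => max (A * |a τ - a (-1 / 2)|)
      |p τ - p (-1 / 2) - A * (τ + 1 / 2)|) (Icc (-1 / 2 : ℝ) (-1 / 500)) := by
    apply ContinuousOn.sup
    · exact continuousOn_const.mul (hac.sub continuousOn_const).abs
    · exact ((hpc.sub continuousOn_const).sub (by fun_prop)).abs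
  have hB := boot _ (-1 / 2) (-1 / 500) (A / 50000) hgc (by
    intro τ hτ hσ
    have hσ2 : ∀ σ ∈ Ico (-1 / 2 : ℝ) τ, |a' σ| ≤ 1 / 50000 ∧ |p' σ - A| ≤ 3 * A / 100000 := by
      intro σ hσ1
      have h1 := max_lt_iff.1 (hσ σ hσ1)
      refine hder σ ⟨hσ1.1, hσ1.2.le.trans hτ.2⟩ ?_ h1.2.le
      have h2 : A * |a σ - a (-1 / 2)| < A * (1 / 50000) := by
        have := h1.1
        linarith
      exact (lt_of_mul_lt_mul_left h2 hApos.le).le
    have hτl : τ ∈ Icc (-1 / 2 : ℝ) τ := ⟨hτ.1, le_rfl⟩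
    have h3 := norm_image_sub_le_of_norm_deriv_le_segment' (f := a) (f' := a')
      (C := 1 / 50000) (a := -1 / 2) (b := τ)
      (fun x hx => (hS x ⟨hx.1, hx.2.trans hτ.2⟩).1.hasDerivWithinAt)
      (fun x hx => (hσ2 x hx).1) τ hτl
    have h4 := norm_image_sub_le_of_norm_deriv_le_segment' (f := fun x => p x - A * x)
      (f' := fun x => p' x - A * 1)
      (C := 3 * A / 100000) (a := -1 / 2) (b := τ)
      (fun x hx => ((hS x ⟨hx.1, hx.2.trans hτ.2⟩).2.1.sub
        ((hasDerivAt_id x).const_mul A)).hasDerivWithinAt)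
      (fun x hx => by
        rw [mul_one]
        exact (hσ2 x hx).2) τ hτl
    rw [Real.norm_eq_abs] at h3 h4
    apply max_lt
    · have h5 : |a τ - a (-1 / 2)| ≤ 1 / 100000 := by
        refine h3.trans ?_
        have := hτ.2
        linarith
      have h6 := mul_le_mul_of_nonneg_left h5 hApos.le
      linarith
    · have h5 : p τ - p (-1 / 2) - A * (τ + 1 / 2) =
          p τ - A * τ - (p (-1 / 2) - A * (-1 / 2)) := by ring
      rw [h5]
      refine lt_of_le_of_lt h4 ?_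
      have h6 := hτ.2
      have h7 : 3 * A / 100000 * (τ - -1 / 2) ≤ 3 * A / 100000 * (1 / 2) :=
        mul_le_mul_of_nonneg_left (by linarith) (by positivity)
      linarith)
  have hfin : ∀ τ ∈ Icc (-1 / 2 : ℝ) (-1 / 500), |a τ - a (-1 / 2)| ≤ 1 / 50000 ∧
      |p τ - p (-1 / 2) - A * (τ + 1 / 2)| ≤ A / 50000 := by
    intro τ hτ
    have h1 := max_lt_iff.1 (hB τ hτ)
    refine ⟨?_, h1.2.le⟩
    have h2 : A * |a τ - a (-1 / 2)| < A * (1 / 50000) := by
      have := h1.1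
      linarith
    exact (lt_of_mul_lt_mul_left h2 hApos.le).le
  have hend : (-1 / 500 : ℝ) ∈ Icc (-1 / 2 : ℝ) (-1 / 500) := ⟨by norm_num, le_rfl⟩
  refine ⟨fun τ hτ => ?_, (hfin _ hend).1, ?_⟩
  · exact (point A τ (a τ) (p τ) _ _ hApos hτ.1 hτ.2 ha0 hp0 (hfin τ hτ).1 (hfin τ hτ).2).1
  · have h1 := (hfin _ hend).2
    have h2 : A * (-1 / 500 + 1 / 2) = A * (1 / 2 - 1 / 500) := by ring
    rwa [h2] at h1

/-- the name asked for -/
theorem j1_thm : P_J1 := main

end Pool.Agent.W705.TL.J1
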